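import Pool.Agent.Helper97.Tate.Goals

set_option autoImplicit false

namespace Pool.Agent.Helper85.Tate.SEM

open Pool.Agent.Helper97.Tate Module

/-- **SEM**: semicontinuity of the kernel in a polynomial family. -/
theorem t : S_SEM := by
  intro K _ V U _ _ _ _ _ Λ n hn
  classical
  obtain ⟨W, hW⟩ := Submodule.exists_isCompl (LinearMap.ker (Λ 0))
  have hinj : LinearMap.ker ((Λ 0) ∘ₗ W.subtype) = ⊥ := by
    rw [LinearMap.ker_comp, eq_bot_iff]
    intro x hx
    have h1 : (x : V) ∈ LinearMap.ker (Λ 0) ⊓ W := ⟨hx, x.2⟩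
    rw [hW.inf_eq_bot, Submodule.mem_bot] at h1
    rw [Submodule.mem_bot]
    exact Subtype.ext h1
  obtain ⟨φ, hφ⟩ := LinearMap.exists_leftInverse_of_injective _ hinj
  let b := Module.finBasis K W
  let M : ℕ → Matrix (Fin (finrank K W)) (Fin (finrank K W)) K :=
    fun i => LinearMap.toMatrix b b (φ ∘ₗ (Λ i) ∘ₗ W.subtype)
  let p : Polynomial K :=
    (∑ i ∈ Finset.range n, (Polynomial.X ^ i : Polynomial K) • (M i).map Polynomial.C).det
  have hp : ∀ ε, p.eval ε = (∑ i ∈ Finset.range n, ε ^ i • M i).det := by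
    intro ε
    have h1 : p.eval ε = Polynomial.evalRingHom ε p := rfl
    rw [h1, RingHom.map_det, map_sum]
    congr 1
    refine Finset.sum_congr rfl fun i _ => ?_
    ext x y
    simp
    exact mul_comm _ _
  have hM0 : M 0 = 1 := by
    have h1 : φ ∘ₗ (Λ 0) ∘ₗ W.subtype = LinearMap.id := hφ
    change LinearMap.toMatrix b b (φ ∘ₗ (Λ 0) ∘ₗ W.subtype) = 1
    rw [h1, LinearMap.toMatrix_id]
  have hp0 : p ≠ 0 := by
    intro h
    have h1 := hp 0
    rw [h, Polynomial.eval_zero, Finset.sum_eq_single_of_mem 0 (Finset.mem_range.2 hn)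
      (fun i _ hi => by rw [zero_pow hi, zero_smul]), pow_zero, one_smul, hM0,
      Matrix.det_one] at h1
    exact zero_ne_one h1
  refine ⟨p.roots.toFinset, fun ε hε => ?_⟩
  have hdet : (∑ i ∈ Finset.range n, ε ^ i • M i).det ≠ 0 := by
    rw [← hp]
    intro h
    exact hε (by rw [Multiset.mem_toFinset, Polynomial.mem_roots hp0]; exact h)
  set L : V →ₗ[K] U := ∑ i ∈ Finset.range n, ε ^ i • Λ i with hL
  have hmat : LinearMap.toMatrix b b (φ ∘ₗ L ∘ₗ W.subtype) =
      ∑ i ∈ Finset.range n, ε ^ i • M i := by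
    have h1 : φ ∘ₗ L ∘ₗ W.subtype =
        ∑ i ∈ Finset.range n, ε ^ i • (φ ∘ₗ (Λ i) ∘ₗ W.subtype) := by
      ext x
      simp only [hL, LinearMap.comp_apply, LinearMap.sum_apply, LinearMap.smul_apply, map_sum,
        map_smul]
    rw [h1, map_sum]
    exact Finset.sum_congr rfl fun i _ => by rw [map_smul]
  have hdet' : LinearMap.det (φ ∘ₗ L ∘ₗ W.subtype) ≠ 0 := by
    rw [← LinearMap.det_toMatrix b, hmat]
    exact hdet
  have hker : LinearMap.ker (φ ∘ₗ L ∘ₗ W.subtype) = ⊥ := by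
    by_contra hne
    exact hdet' (LinearMap.det_eq_zero_iff_ker_ne_bot.2 hne)
  have hdisj : Disjoint (LinearMap.ker L) W := by
    rw [Submodule.disjoint_def]
    intro x hx hxW
    have h1 : (⟨x, hxW⟩ : W) ∈ LinearMap.ker (φ ∘ₗ L ∘ₗ W.subtype) := by
      rw [LinearMap.mem_ker, LinearMap.comp_apply, LinearMap.comp_apply, Submodule.subtype_apply,
        LinearMap.mem_ker.1 hx, map_zero]
    rw [hker, Submodule.mem_bot] at h1
    exact congrArg Subtype.val h1
  have h1 := Submodule.finrank_add_finrank_le_of_disjoint hdisj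
  have h2 := Submodule.finrank_add_eq_of_isCompl hW
  omega

end Pool.Agent.Helper85.Tate.SEM
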